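import Mathlib
import Pool.Agent.R870.RO.Defs

set_option autoImplicit false

/-! # Random root stacks: definitions -/

namespace Pool.Agent.R870.RS

open MvPolynomial Pool.Agent.R870.RC

/-- the sum of `log p` over the primes `p ∉ S` that divide `t` -/
noncomputable def N1 (S : Finset ℕ) (t : ℤ) : ℝ := ∑ p ∈ t.natAbs.primeFactors \ S, Real.log p

/-- the logarithmic height of a vector of coprime integers -/
noncomputable def hgt {n : ℕ} (x : Fin (n + 1) → ℤ) : ℝ := Real.log (⨆ j, |(x j : ℝ)|)

/-- the condition for the value `t = F_i (x)`: for a component of the divisor (`none`) it is not zero,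
for a component with multiplicity `m` (`some m`) it satisfies Campana's condition outside of `S` -/
def Ok (S : Finset ℕ) (k : Option ℕ∞) (t : ℤ) : Prop :=
  match k with
  | none => t ≠ 0
  | some m => Cam S m t

/-- the coefficient `1` for a component of the divisor, and `1 - 1 / m` for multiplicity `m` -/
noncomputable def co (k : Option ℕ∞) : ℝ :=
  match k with
  | none => 1
  | some m => 1 - th m

/-- the contribution to the truncated counting function of the divisor -/
noncomputable def N1k (S : Finset ℕ) (k : Option ℕ∞) (t : ℤ) : ℝ :=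
  match k with
  | none => N1 S t
  | some _ => 0

/-- the systems for which the inequality

  `(∑ co_i d_i - n - 1 - ε) h(x) + κ log H ≤ ∑_{k_i = none} N1 (F_i (x))`

fails for some point `x` satisfying the conditions `Ok`, of height at most
`H ^ ((∑ co_i + D - κ) / D)`, `D = ∑ d_i` -/
def BadS (n : ℕ) {s : ℕ} (d : Fin s → ℕ) (k : Fin s → Option ℕ∞) (S : Finset ℕ) (ε κ : ℝ) (H : ℕ) :
    Set (Fin s → MvPolynomial (Fin (n + 1)) ℤ) :=
  {F | F ∈ Systems n d H ∧ ∃ x : Fin (n + 1) → ℤ, (∃ a : Fin (n + 1) → ℤ, ∑ j, a j * x j = 1) ∧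
    (∀ j, |(x j : ℝ)| ^ (∑ i, d i) ≤ (H : ℝ) ^ (∑ i, co (k i) + (∑ i, d i : ℕ) - κ)) ∧
    (∀ i, Ok S (k i) (eval x (F i))) ∧
    ∑ i, N1k S (k i) (eval x (F i)) <
      (∑ i, co (k i) * d i - n - 1 - ε) * hgt x + κ * Real.log H}

end Pool.Agent.R870.RS
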