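import Mathlib
import Pool.Agent.R870.RS.Defs
import Pool.Agent.R870.RO.Full
import Pool.Agent.R870.RV.Count

set_option autoImplicit false

/-! # Random root stacks: the count for one point -/

namespace Pool.Agent.R870.RS

open MvPolynomial Pool.Agent.R870.RC

variable {n : ℕ}

/-- the radical for the components of the divisor -/
def rho (S : Finset ℕ) (k : Option ℕ∞) (t : ℤ) : ℕ :=
  match k with
  | none => radS S t
  | some _ => 1

theorem rho_pos (S : Finset ℕ) (k : Option ℕ∞) (t : ℤ) : 0 < rho S k t := by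
  cases k with
  | none => exact radS_pos S t
  | some m => exact one_pos

theorem ok_ne {S : Finset ℕ} {k : Option ℕ∞} {t : ℤ} (h : Ok S k t) : t ≠ 0 := by
  cases k with
  | none => exact h
  | some m => exact h.1

/-- the values -/
noncomputable def VZ (S : Finset ℕ) (k : Option ℕ∞) (T : ℕ) : Finset ℤ := by
  classical
  exact (NZ T).filter (fun t => Ok S k t)

theorem mem_VZ {S : Finset ℕ} {k : Option ℕ∞} {T : ℕ} {t : ℤ} :
    t ∈ VZ S k T ↔ |t| ≤ T ∧ Ok S k t := by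
  classical
  unfold VZ
  rw [Finset.mem_filter, mem_NZ]
  constructor
  · rintro ⟨⟨_, h1⟩, h2⟩
    exact ⟨h1, h2⟩
  · rintro ⟨h1, h2⟩
    exact ⟨⟨ok_ne h2, h1⟩, h2⟩

theorem th_nonneg' (m : ℕ∞) : 0 ≤ th m := by
  unfold th
  split_ifs
  · exact le_refl _
  · positivity

/-- the weighted number of the values -/
theorem sum_VZ (S : Finset ℕ) (hS : ∀ p ∈ S, p.Prime) (k : Option ℕ∞)
    (hk : ∀ m, k = some m → 1 ≤ m) (N d : ℕ) (hN : 1 ≤ N) (ε : ℝ) (hε : 0 < ε) :
    ∃ K : ℝ, 0 ≤ K ∧ ∀ H b : ℕ, 1 ≤ H → 1 ≤ b →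
      ∑ t ∈ VZ S k (N * H * b ^ d), (1 : ℝ) / rho S k t ≤
        K * ((H : ℝ) ^ (1 - co k + ε) * (b : ℝ) ^ (d * (1 - co k) + (d + 1) * ε)) := by
  classical
  cases k with
  | none =>
    obtain ⟨C, hC, h⟩ := sum_radS S ε hε
    refine ⟨C * (N : ℝ) ^ ε, by positivity, fun H b hH hb => ?_⟩
    have hT : 1 ≤ N * H * b ^ d := Nat.mul_pos (Nat.mul_pos hN hH) (pow_pos hb _)
    have hbr : (1 : ℝ) ≤ b := by exact_mod_cast hb
    have h1 : VZ S none (N * H * b ^ d) = NZ (N * H * b ^ d) := by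
      ext t
      rw [mem_VZ, mem_NZ]
      exact ⟨fun h => ⟨h.2, h.1⟩, fun h => ⟨h.2, h.1⟩⟩
    rw [h1]
    refine (h _ hT).trans ?_
    have h3 : ((N * H * b ^ d : ℕ) : ℝ) ^ ε =
        (N : ℝ) ^ ε * (H : ℝ) ^ ε * (b : ℝ) ^ ((d : ℝ) * ε) := by
      rw [Nat.cast_mul, Nat.cast_mul, Nat.cast_pow,
        Real.mul_rpow (mul_nonneg (Nat.cast_nonneg _) (Nat.cast_nonneg _))
          (pow_nonneg (Nat.cast_nonneg _) _),
        Real.mul_rpow (Nat.cast_nonneg _) (Nat.cast_nonneg _), ← Real.rpow_natCast (b : ℝ) d,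
        ← Real.rpow_mul (Nat.cast_nonneg _)]
    rw [h3]
    have h4 : (b : ℝ) ^ ((d : ℝ) * ε) ≤ (b : ℝ) ^ ((d : ℝ) * (1 - co none) + (d + 1) * ε) := by
      apply Real.rpow_le_rpow_of_exponent_le hbr
      unfold co
      simp only
      linarith
    have h5 : (1 : ℝ) - co none + ε = ε := by
      unfold co
      simp
    rw [h5]
    calc C * ((N : ℝ) ^ ε * (H : ℝ) ^ ε * (b : ℝ) ^ ((d : ℝ) * ε))
        = C * (N : ℝ) ^ ε * ((H : ℝ) ^ ε * (b : ℝ) ^ ((d : ℝ) * ε)) := by ring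
      _ ≤ _ := mul_le_mul_of_nonneg_left (mul_le_mul_of_nonneg_left h4 (by positivity))
          (by positivity)
  | some m =>
    obtain ⟨K, hK, h⟩ := card_CU_le S hS m (hk m rfl) N d hN
    -- the logarithms
    obtain ⟨L, hL, hlog⟩ : ∃ L : ℝ, 0 ≤ L ∧ ∀ b : ℕ, 1 ≤ b →
        (1 + Real.log b) ^ exc S m ≤ L * (b : ℝ) ^ ε := by
      rcases Nat.eq_zero_or_pos (exc S m) with he | he
      · refine ⟨1, zero_le_one, fun b hb => ?_⟩
        rw [he, pow_zero, one_mul]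
        exact Real.one_le_rpow (by exact_mod_cast hb) hε.le
      · set ε' : ℝ := ε / exc S m with hε'
        have her : (0 : ℝ) < exc S m := by exact_mod_cast he
        have hε0 : 0 < ε' := by positivity
        refine ⟨(1 + 1 / ε') ^ exc S m, by positivity, fun b hb => ?_⟩
        have hbr : (1 : ℝ) ≤ b := by exact_mod_cast hb
        have h1 : Real.log b ≤ (b : ℝ) ^ ε' / ε' := Real.log_le_rpow_div (by linarith) hε0
        have h2 : 1 + Real.log b ≤ (1 + 1 / ε') * (b : ℝ) ^ ε' := by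
          have h3 : (1 : ℝ) ≤ (b : ℝ) ^ ε' := Real.one_le_rpow hbr hε0.le
          calc 1 + Real.log b ≤ (b : ℝ) ^ ε' + (b : ℝ) ^ ε' / ε' := add_le_add h3 h1
            _ = _ := by ring
        have h4 : 0 ≤ 1 + Real.log b := by
          have := Real.log_nonneg hbr
          linarith
        calc (1 + Real.log b) ^ exc S m ≤ ((1 + 1 / ε') * (b : ℝ) ^ ε') ^ exc S m :=
              pow_le_pow_left₀ h4 h2 _
          _ = (1 + 1 / ε') ^ exc S m * (b : ℝ) ^ ε := by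
            rw [mul_pow, ← Real.rpow_natCast ((b : ℝ) ^ ε'), ← Real.rpow_mul (by linarith)]
            congr 2
            rw [hε']
            field_simp
    refine ⟨K * (L * L), by positivity, fun H b hH hb => ?_⟩
    have h1 : ∑ t ∈ VZ S (some m) (N * H * b ^ d), (1 : ℝ) / rho S (some m) t ≤
        ((CU S m (N * H * b ^ d)).card : ℝ) := by
      have h2 : ∀ t ∈ VZ S (some m) (N * H * b ^ d), (1 : ℝ) / rho S (some m) t = 1 := by
        intro t _
        unfold rho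
        simp
      rw [Finset.sum_congr rfl h2, Finset.sum_const, nsmul_eq_mul, mul_one, Nat.cast_le]
      apply Finset.card_le_card
      intro t ht
      rw [mem_CU]
      exact mem_VZ.1 ht
    refine h1.trans ((h H b hH hb).trans ?_)
    have hHr : (1 : ℝ) ≤ H := by exact_mod_cast hH
    have hbr : (1 : ℝ) ≤ b := by exact_mod_cast hb
    have hlogH : 0 ≤ 1 + Real.log H := by
      have := Real.log_nonneg hHr
      linarith
    have hlogb : 0 ≤ 1 + Real.log b := by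
      have := Real.log_nonneg hbr
      linarith
    have h2 : (H : ℝ) ^ th m * (1 + Real.log H) ^ exc S m ≤ L * (H : ℝ) ^ (th m + ε) := by
      rw [Real.rpow_add (by linarith)]
      calc _ ≤ (H : ℝ) ^ th m * (L * (H : ℝ) ^ ε) :=
            mul_le_mul_of_nonneg_left (hlog H hH) (by positivity)
        _ = _ := by ring
    have h3 : (b : ℝ) ^ (d * th m) * (1 + Real.log b) ^ exc S m ≤
        L * (b : ℝ) ^ (d * th m + (d + 1) * ε) := by
      have h4 : (b : ℝ) ^ (d * th m + ε) ≤ (b : ℝ) ^ (d * th m + (d + 1) * ε) := by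
        apply Real.rpow_le_rpow_of_exponent_le hbr
        have : 0 ≤ (d : ℝ) * ε := by positivity
        linarith
      refine le_trans ?_ (mul_le_mul_of_nonneg_left h4 hL)
      rw [Real.rpow_add (by linarith)]
      calc _ ≤ (b : ℝ) ^ (d * th m) * (L * (b : ℝ) ^ ε) :=
            mul_le_mul_of_nonneg_left (hlog b hb) (by positivity)
        _ = _ := by ring
    have h5 : (1 : ℝ) - co (some m) = th m := by
      unfold co
      simp
    rw [h5]
    calc K * (((H : ℝ) ^ th m * (1 + Real.log H) ^ exc S m) *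
          ((b : ℝ) ^ (d * th m) * (1 + Real.log b) ^ exc S m))
        ≤ K * ((L * (H : ℝ) ^ (th m + ε)) * (L * (b : ℝ) ^ (d * th m + (d + 1) * ε))) := by
          apply mul_le_mul_of_nonneg_left _ hK
          exact mul_le_mul h2 h3 (by positivity) (by positivity)
      _ = _ := by ring

/-- the exceptional systems of a point -/
noncomputable def WS {s : ℕ} (d : Fin s → ℕ) (k : Fin s → Option ℕ∞) (S : Finset ℕ) (H : ℕ) (R : ℝ)
    (x : Fin (n + 1) → ℤ) : Finset (Fin s → MvPolynomial (Fin (n + 1)) ℤ) := by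
  classical
  exact (Fintype.piFinset fun i => FF n (d i) H).filter
    (fun F => (∀ i, Ok S (k i) (eval x (F i))) ∧
      ((∏ i, rho S (k i) (eval x (F i)) : ℕ) : ℝ) ≤ R)

theorem mem_WS {s : ℕ} {d : Fin s → ℕ} {k : Fin s → Option ℕ∞} {S : Finset ℕ} {H : ℕ} {R : ℝ}
    {x : Fin (n + 1) → ℤ}
    {F : Fin s → MvPolynomial (Fin (n + 1)) ℤ} : F ∈ WS d k S H R x ↔ (∀ i, F i ∈ FF n (d i) H) ∧
      (∀ i, Ok S (k i) (eval x (F i))) ∧ ((∏ i, rho S (k i) (eval x (F i)) : ℕ) : ℝ) ≤ R := by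
  classical
  unfold WS
  rw [Finset.mem_filter, Fintype.mem_piFinset]

theorem card_WS_aux {s : ℕ} (d : Fin s → ℕ) (k : Fin s → Option ℕ∞) (S : Finset ℕ) (H : ℕ)
    (hH : 1 ≤ H) (R : ℝ)
    (hR : 0 ≤ R) (x : Fin (n + 1) → ℤ) (i0 : Fin (n + 1)) (b : ℕ) (hx : Prim x i0 b) :
    ((WS d k S H R x).card : ℝ) ≤ R * ∏ i,
      ((cst n (d i) * (FF n (d i) H).card / (H * ((min b H : ℕ) : ℝ) ^ d i) : ℝ) *
        ∑ t ∈ VZ S (k i) ((Mo n (d i)).card * H * b ^ d i), (1 : ℝ) / rho S (k i) t) := by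
  classical
  set A : Fin s → ℝ := fun i =>
    (cst n (d i) * (FF n (d i) H).card / (H * ((min b H : ℕ) : ℝ) ^ d i) : ℝ) with hA
  have hA0 : ∀ i, 0 ≤ A i := fun i => div_nonneg (mul_nonneg (Nat.cast_nonneg _)
    (Nat.cast_nonneg _)) (mul_nonneg (Nat.cast_nonneg _) (pow_nonneg (Nat.cast_nonneg _) _))
  set Z : Fin s → Finset ℤ := fun i => VZ S (k i) ((Mo n (d i)).card * H * b ^ d i) with hZ
  have hsub : WS d k S H R x ⊆ ((Fintype.piFinset Z).filter
      (fun t => ((∏ i, rho S (k i) (t i) : ℕ) : ℝ) ≤ R)).biUnion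
        fun t => Fintype.piFinset fun i => (FF n (d i) H).filter (fun F => eval x F = t i) := by
    intro F hF
    obtain ⟨h1, h2, h3⟩ := mem_WS.1 hF
    rw [Finset.mem_biUnion]
    refine ⟨fun i => eval x (F i), Finset.mem_filter.2 ⟨?_, h3⟩, ?_⟩
    · rw [Fintype.mem_piFinset]
      intro i
      exact mem_VZ.2 ⟨abs_eval_le ((mem_FF _).1 (h1 i)) x b hx.2.2.2, h2 i⟩
    · rw [Fintype.mem_piFinset]
      intro i
      exact Finset.mem_filter.2 ⟨h1 i, rfl⟩
  have h1 : ((WS d k S H R x).card : ℝ) ≤ ∑ t ∈ (Fintype.piFinset Z).filter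
      (fun t => ((∏ i, rho S (k i) (t i) : ℕ) : ℝ) ≤ R), ∏ i, A i := by
    refine (Nat.cast_le.2 ((Finset.card_le_card hsub).trans Finset.card_biUnion_le)).trans ?_
    rw [Nat.cast_sum]
    refine Finset.sum_le_sum fun t _ => ?_
    rw [Fintype.card_piFinset, Nat.cast_prod]
    exact Finset.prod_le_prod (fun i _ => Nat.cast_nonneg _)
      fun i _ => count_real (d i) H hH x i0 b hx (t i)
  refine h1.trans ?_
  have h2 : ∑ t ∈ (Fintype.piFinset Z).filter
      (fun t => ((∏ i, rho S (k i) (t i) : ℕ) : ℝ) ≤ R), ∏ i, A i ≤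
      ∑ t ∈ Fintype.piFinset Z, R * ∏ i, (A i * (1 / (rho S (k i) (t i) : ℝ))) := by
    rw [Finset.sum_filter]
    refine Finset.sum_le_sum fun t _ => ?_
    have hpos : (0 : ℝ) < ((∏ i, rho S (k i) (t i) : ℕ) : ℝ) := by
      have : 0 < ∏ i, rho S (k i) (t i) := Finset.prod_pos fun i _ => rho_pos S (k i) (t i)
      exact_mod_cast this
    have h3 : R * ∏ i, (A i * (1 / (rho S (k i) (t i) : ℝ))) =
        (∏ i, A i) * (R / ((∏ i, rho S (k i) (t i) : ℕ) : ℝ)) := by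
      rw [Finset.prod_mul_distrib, Nat.cast_prod]
      simp only [one_div, Finset.prod_inv_distrib]
      rw [div_eq_mul_inv]
      ring
    rw [h3]
    have h4 : 0 ≤ ∏ i, A i := Finset.prod_nonneg fun i _ => hA0 i
    by_cases h : ((∏ i, rho S (k i) (t i) : ℕ) : ℝ) ≤ R
    · rw [if_pos h]
      have h5 : 1 ≤ R / ((∏ i, rho S (k i) (t i) : ℕ) : ℝ) := (one_le_div hpos).2 h
      calc ∏ i, A i = (∏ i, A i) * 1 := (mul_one _).symm
        _ ≤ _ := mul_le_mul_of_nonneg_left h5 h4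
    · rw [if_neg h]
      exact mul_nonneg h4 (div_nonneg hR hpos.le)
  refine h2.trans (le_of_eq ?_)
  rw [← Finset.mul_sum]
  congr 1
  rw [← Finset.prod_univ_sum Z (fun i t => A i * (1 / (rho S (k i) t : ℝ)))]
  refine Finset.prod_congr rfl fun i _ => ?_
  rw [← Finset.mul_sum]

/-- the number of systems, in final form -/
theorem card_WS {s : ℕ} (d : Fin s → ℕ) (k : Fin s → Option ℕ∞)
    (hk : ∀ i m, k i = some m → 1 ≤ m) (S : Finset ℕ) (hS : ∀ p ∈ S, p.Prime)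
    (ε : ℝ) (hε : 0 < ε) :
    ∃ K : ℝ, 0 ≤ K ∧ ∀ H : ℕ, 1 ≤ H → ∀ (R : ℝ), 0 ≤ R → ∀ (x : Fin (n + 1) → ℤ)
      (i0 : Fin (n + 1)) (b : ℕ), Prim x i0 b →
      ((WS d k S H R x).card : ℝ) ≤ K * R * ((H : ℝ) ^ (s * ε) / (H : ℝ) ^ (∑ i, co (k i))) *
        ((b : ℝ) ^ (∑ i, d i * (1 - co (k i)) + (∑ i, ((d i : ℝ) + 1)) * ε) /
          ((min b H : ℕ) : ℝ) ^ (∑ i, d i)) *
        ∏ i, ((FF n (d i) H).card : ℝ) := by
  classical
  have hN1 : ∀ i, 1 ≤ (Mo n (d i)).card := fun i => by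
    rw [card_Mo]
    exact Nat.choose_pos (by omega)
  choose C hC hsum using fun i => sum_VZ S hS (k i) (hk i) (Mo n (d i)).card (d i) (hN1 i) ε hε
  refine ⟨∏ i, ((cst n (d i) : ℝ) * C i), ?_, fun H hH R hR x i0 b hx => ?_⟩
  · exact Finset.prod_nonneg fun i _ => mul_nonneg (Nat.cast_nonneg _) (hC i)
  have hHr : (1 : ℝ) ≤ H := by exact_mod_cast hH
  have hH0 : (0 : ℝ) < H := by linarith
  have hb1 : 1 ≤ b := hx.2.2.1
  have hbr : (1 : ℝ) ≤ b := by exact_mod_cast hb1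
  refine (card_WS_aux d k S H hH R hR x i0 b hx).trans ?_
  have h1 : ∀ i, (cst n (d i) * (FF n (d i) H).card / (H * ((min b H : ℕ) : ℝ) ^ d i) : ℝ) *
      ∑ t ∈ VZ S (k i) ((Mo n (d i)).card * H * b ^ d i), (1 : ℝ) / rho S (k i) t ≤
      ((cst n (d i) : ℝ) * C i) * ((H : ℝ) ^ ε * (H : ℝ) ^ (-co (k i))) *
        (((b : ℝ) ^ (d i * (1 - co (k i)) + ((d i : ℝ) + 1) * ε)) /
          ((min b H : ℕ) : ℝ) ^ d i) * ((FF n (d i) H).card : ℝ) := by
    intro i
    have h4 : (0 : ℝ) ≤ (cst n (d i) * (FF n (d i) H).card /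
        (H * ((min b H : ℕ) : ℝ) ^ d i) : ℝ) := div_nonneg (mul_nonneg (Nat.cast_nonneg _)
      (Nat.cast_nonneg _)) (mul_nonneg (Nat.cast_nonneg _) (pow_nonneg (Nat.cast_nonneg _) _))
    refine (mul_le_mul_of_nonneg_left (hsum i H b hH hb1) h4).trans (le_of_eq ?_)
    have h5 : (H : ℝ) ^ (1 - co (k i) + ε) = H * ((H : ℝ) ^ ε * (H : ℝ) ^ (-co (k i))) := by
      rw [← Real.rpow_add hH0]
      conv_rhs => rw [← Real.rpow_one (H : ℝ), ← Real.rpow_mul hH0.le, one_mul]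
      rw [← Real.rpow_add hH0]
      congr 1
      ring
    rw [h5]
    generalize ((FF n (d i) H).card : ℝ) = f
    generalize ((min b H : ℕ) : ℝ) ^ d i = μ
    generalize (b : ℝ) ^ (d i * (1 - co (k i)) + ((d i : ℝ) + 1) * ε) = β
    generalize (H : ℝ) ^ ε * (H : ℝ) ^ (-co (k i)) = η
    have h6 : (H : ℝ) / (H * μ) = 1 / μ := by
      rw [← div_div, div_self hH0.ne']
    calc (cst n (d i) : ℝ) * f / (H * μ) * (C i * (H * η * β))
        = (cst n (d i) : ℝ) * f * C i * η * β * (H / (H * μ)) := by ring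
      _ = _ := by
        rw [h6]
        ring
  have h0 : ∀ i, (0 : ℝ) ≤ (cst n (d i) * (FF n (d i) H).card /
      (H * ((min b H : ℕ) : ℝ) ^ d i) : ℝ) *
      ∑ t ∈ VZ S (k i) ((Mo n (d i)).card * H * b ^ d i), (1 : ℝ) / rho S (k i) t := fun i =>
    mul_nonneg (div_nonneg (mul_nonneg (Nat.cast_nonneg _)
      (Nat.cast_nonneg _)) (mul_nonneg (Nat.cast_nonneg _) (pow_nonneg (Nat.cast_nonneg _) _)))
      (Finset.sum_nonneg fun t _ => div_nonneg zero_le_one (Nat.cast_nonneg _))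
  refine (mul_le_mul_of_nonneg_left (Finset.prod_le_prod (fun i _ => h0 i) (fun i _ => h1 i))
    hR).trans (le_of_eq ?_)
  rw [Finset.prod_mul_distrib, Finset.prod_mul_distrib, Finset.prod_mul_distrib,
    Finset.prod_div_distrib (f := fun i => (b : ℝ) ^ ((d i : ℝ) * (1 - co (k i)) +
      ((d i : ℝ) + 1) * ε)),
    Finset.prod_pow_eq_pow_sum, Finset.prod_mul_distrib (f := fun _ => (H : ℝ) ^ ε),
    Finset.prod_const, Finset.card_univ, Fintype.card_fin]
  have h2 : ∏ i, (b : ℝ) ^ ((d i : ℝ) * (1 - co (k i)) + ((d i : ℝ) + 1) * ε) =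
      (b : ℝ) ^ (∑ i, d i * (1 - co (k i)) + (∑ i, ((d i : ℝ) + 1)) * ε) := by
    rw [← Real.rpow_sum_of_pos (by linarith), Finset.sum_add_distrib, ← Finset.sum_mul]
  have h3 : ((H : ℝ) ^ ε) ^ s = (H : ℝ) ^ (s * ε) := by
    rw [← Real.rpow_natCast, ← Real.rpow_mul (by linarith), mul_comm]
  have h4 : ∏ i, (H : ℝ) ^ (-co (k i)) = 1 / (H : ℝ) ^ (∑ i, co (k i)) := by
    rw [← Real.rpow_sum_of_pos hH0, Finset.sum_neg_distrib, Real.rpow_neg hH0.le, one_div]
  rw [h2, h3, h4]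
  ring

end Pool.Agent.R870.RS
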