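import Mathlib
import Pool.Agent.R870.RS.Count
import Pool.Agent.R870.RV.Final

set_option autoImplicit false

/-! # Random root stacks -/

namespace Pool.Agent.R870.RS

open MvPolynomial Pool.Agent.R870.RC

variable {n : ℕ}

theorem rho_log (S : Finset ℕ) (k : Option ℕ∞) (t : ℤ) : Real.log (rho S k t) = N1k S k t := by
  cases k with
  | none =>
    unfold rho N1k N1
    simp only
    exact (Pool.Agent.R870.RC.N1_eq S t).symm
  | some m =>
    unfold rho N1k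
    simp

/-- **Random root stacks.** -/
theorem random_stacks (n s : ℕ) (d : Fin s → ℕ) (hD : 1 ≤ ∑ i, d i) (k : Fin s → Option ℕ∞)
    (hk : ∀ i m, k i = some m → 1 ≤ m) (S : Finset ℕ) (hS : ∀ p ∈ S, p.Prime) (ε κ : ℝ)
    (hε : 0 < ε) (hκ : κ < ∑ i, co (k i)) : ∃ δ C : ℝ, 0 < δ ∧ ∀ H : ℕ, 1 ≤ H →
      ((BadS n d k S ε κ H).ncard : ℝ) ≤ C * (H : ℝ) ^ (-δ) * ((Systems n d H).ncard : ℝ) := by
  classical
  set D : ℕ := ∑ i, d i with hDdef
  set σ : ℝ := ∑ i, co (k i) with hσ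
  set KD : ℝ := ∑ i, co (k i) * d i with hKD
  set E : ℝ := ∑ i, ((d i : ℝ) + 1) with hE
  have hDr : (1 : ℝ) ≤ D := by exact_mod_cast hD
  have hs0 : (0 : ℝ) ≤ s := Nat.cast_nonneg s
  have hE0 : 0 ≤ E := Finset.sum_nonneg fun i _ => by positivity
  have hsum1 : KD + ∑ i, d i * (1 - co (k i)) = D := by
    rw [hKD, hDdef, ← Finset.sum_add_distrib]
    push_cast
    exact Finset.sum_congr rfl fun i _ => by ring
  set e' : ℝ := min (ε / (2 * (E + 1))) (min ((σ - κ) / (2 * (s + 1))) (ε / (8 * (s + 1)))) with he'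
  have he0 : 0 < e' := by
    rw [he']
    refine lt_min (by positivity) (lt_min ?_ (by positivity))
    exact div_pos (by linarith) (by positivity)
  have he1 : E * e' ≤ ε / 2 := by
    have h1 : e' ≤ ε / (2 * (E + 1)) := min_le_left _ _
    calc E * e' ≤ (E + 1) * e' := by nlinarith
      _ ≤ (E + 1) * (ε / (2 * (E + 1))) := mul_le_mul_of_nonneg_left h1 (by linarith)
      _ = ε / 2 := by field_simp
  have he2 : s * e' ≤ (σ - κ) / 2 := by
    have h1 : e' ≤ (σ - κ) / (2 * (s + 1)) := (min_le_right _ _).trans (min_le_left _ _)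
    have h2 : (s : ℝ) * e' ≤ (s + 1) * ((σ - κ) / (2 * (s + 1))) := by
      calc (s : ℝ) * e' ≤ (s + 1) * e' := by nlinarith
        _ ≤ _ := mul_le_mul_of_nonneg_left h1 (by positivity)
    refine h2.trans (le_of_eq ?_)
    field_simp
  have he3 : s * e' ≤ ε / 8 := by
    have h1 : e' ≤ ε / (8 * (s + 1)) := (min_le_right _ _).trans (min_le_right _ _)
    have h2 : (s : ℝ) * e' ≤ (s + 1) * (ε / (8 * (s + 1))) := by
      calc (s : ℝ) * e' ≤ (s + 1) * e' := by nlinarith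
        _ ≤ _ := mul_le_mul_of_nonneg_left h1 (by positivity)
    refine h2.trans (le_of_eq ?_)
    field_simp
  set e2 : ℝ := E * e' / D with he2'
  have he4 : D * e2 = E * e' := by rw [he2']; field_simp
  obtain ⟨K, hK, hcard⟩ := card_WS (n := n) d k hk S hS e' he0
  obtain ⟨K2, hK2, hsum⟩ := sum_final n D ε e2 hε (by rw [he4]; exact he1)
  refine ⟨min ((σ - κ) / 2) (ε / 8), (n + 1) * K * K2 * 2,
    lt_min (by linarith) (by linarith), fun H hH => ?_⟩
  have hHr : (1 : ℝ) ≤ H := by exact_mod_cast hH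
  have hH0 : (0 : ℝ) < H := by linarith
  set Y : ℝ := (H : ℝ) ^ (σ + (D : ℝ) - κ) with hY
  have hY0 : 0 ≤ Y := Real.rpow_nonneg hH0.le _
  set B : ℕ := ⌊Y⌋₊ with hB
  -- the exceptional systems of one point
  set W : ℕ → (Fin (n + 1) → ℤ) → Finset (Fin s → MvPolynomial (Fin (n + 1)) ℤ) := fun b x =>
    if (b : ℝ) ^ D ≤ Y then
      WS d k S H ((H : ℝ) ^ κ * (b : ℝ) ^ (KD - n - 1 - ε)) x else ∅ with hW
  have hsub : BadS n d k S ε κ H ⊆ ((bad3 n W B : Finset _) : Set _) := by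
    rintro F ⟨hF, x, ⟨a, ha⟩, hxY, hx0, hlt⟩
    obtain ⟨i0, -, hi0⟩ := Finset.exists_max_image (Finset.univ : Finset (Fin (n + 1)))
      (fun i => |x i|) ⟨0, Finset.mem_univ _⟩
    have hx1 : 1 ≤ (x i0).natAbs := by
      by_contra h
      have h1 : (x i0).natAbs = 0 := by omega
      have h2 : x i0 = 0 := Int.natAbs_eq_zero.1 h1
      have h3 : ∀ i, x i = 0 := by
        intro i
        have h4 := hi0 i (Finset.mem_univ i)
        rw [h2, abs_zero] at h4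
        exact abs_eq_zero.1 (le_antisymm h4 (abs_nonneg _))
      rw [Finset.sum_eq_zero (fun i _ => by rw [h3 i, mul_zero])] at ha
      exact zero_ne_one ha
    have hp : Prim x i0 (x i0).natAbs := by
      refine ⟨⟨a, ha⟩, (Int.natCast_natAbs _).symm, hx1, fun i => ?_⟩
      rw [Int.natCast_natAbs]
      exact hi0 i (Finset.mem_univ i)
    have hbY : (((x i0).natAbs : ℕ) : ℝ) ^ D ≤ Y := by
      have h1 := hxY i0
      rw [Nat.cast_natAbs, Int.cast_abs]
      exact h1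
    have hb : (x i0).natAbs ≤ B := by
      rw [hB]
      refine Nat.le_floor ?_
      have h1 : (1 : ℝ) ≤ (((x i0).natAbs : ℕ) : ℝ) := by exact_mod_cast hx1
      exact (le_self_pow₀ h1 (by omega)).trans hbY
    rw [Finset.mem_coe]
    unfold bad3
    simp only [Finset.mem_biUnion, Finset.mem_univ, true_and, Finset.mem_Icc, Finset.mem_filter]
    refine ⟨i0, (x i0).natAbs, ⟨hx1, hb⟩, x, ⟨mem_Bx hp, hp⟩, ?_⟩
    rw [hW]
    show F ∈ if (((x i0).natAbs : ℕ) : ℝ) ^ D ≤ Y then _ else _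
    rw [if_pos hbY, mem_WS]
    refine ⟨fun i => (mem_FF _).2 (hF i), hx0, ?_⟩
    have hb0 : (0 : ℝ) < (((x i0).natAbs : ℕ) : ℝ) := by exact_mod_cast hx1
    have hr : ∀ i, (0 : ℝ) < (rho S (k i) (eval x (F i)) : ℝ) := fun i => by
      exact_mod_cast rho_pos S (k i) (eval x (F i))
    rw [Nat.cast_prod]
    have h1 : Real.log (∏ i, (rho S (k i) (eval x (F i)) : ℝ)) =
        ∑ i, N1k S (k i) (eval x (F i)) := by
      rw [Real.log_prod (fun i _ => (hr i).ne')]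
      exact Finset.sum_congr rfl fun i _ => rho_log S (k i) _
    have hgt_eq' : hgt x = Real.log (((x i0).natAbs : ℕ) : ℝ) := Pool.Agent.R870.RC.hgt_eq hp
    have h2 : Real.log ((H : ℝ) ^ κ * (((x i0).natAbs : ℕ) : ℝ) ^ (KD - n - 1 - ε)) =
        (KD - n - 1 - ε) * hgt x + κ * Real.log H := by
      rw [Real.log_mul (Real.rpow_pos_of_pos hH0 _).ne' (Real.rpow_pos_of_pos hb0 _).ne',
        Real.log_rpow hH0, Real.log_rpow hb0, hgt_eq']
      ring
    rw [← Real.log_le_log_iff (Finset.prod_pos fun i _ => hr i)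
      (mul_pos (Real.rpow_pos_of_pos hH0 _) (Real.rpow_pos_of_pos hb0 _)), h1, h2]
    exact hlt.le
  have h2 := Set.ncard_le_ncard hsub (Finset.finite_toSet _)
  rw [Set.ncard_coe_finset] at h2
  have h3 : ((BadS n d k S ε κ H).ncard : ℝ) ≤ ((bad3 n W B).card : ℝ) := Nat.cast_le.2 h2
  refine h3.trans ?_
  set G : ℝ := ∏ i, ((FF n (d i) H).card : ℝ) with hG
  have hG0 : 0 ≤ G := Finset.prod_nonneg fun i _ => Nat.cast_nonneg _
  set A : ℝ := K * ((H : ℝ) ^ κ * ((H : ℝ) ^ (s * e') / (H : ℝ) ^ σ)) * G with hA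
  have hA0 : 0 ≤ A := by
    rw [hA]
    exact mul_nonneg (mul_nonneg hK (mul_nonneg (Real.rpow_nonneg hH0.le _)
      (div_nonneg (Real.rpow_nonneg hH0.le _) (Real.rpow_nonneg hH0.le _)))) hG0
  set φ : ℕ → ℝ := fun b => (if (b : ℝ) ^ D ≤ Y then
    (b : ℝ) ^ ((D : ℝ) - n - 1 - ε) * ((b : ℝ) ^ (D * e2) / ((min b H : ℕ) : ℝ) ^ D) else 0) *
      A with hφ
  have h4 : ((bad3 n W B).card : ℝ) ≤ (n + 1) * ∑ b ∈ Finset.Icc 1 B,
      (2 * (3 * b) ^ n : ℝ) * φ b := by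
    refine card_bad3 W B φ (fun b hb => ?_) (fun x i0 b hx => ?_)
    · rw [hφ]
      refine mul_nonneg ?_ hA0
      by_cases h : (b : ℝ) ^ D ≤ Y
      · rw [if_pos h]
        exact mul_nonneg (Real.rpow_nonneg (Nat.cast_nonneg _) _)
          (div_nonneg (Real.rpow_nonneg (Nat.cast_nonneg _) _) (pow_nonneg (Nat.cast_nonneg _) _))
      · rw [if_neg h]
    · rw [hφ, hW]
      show (((if (b : ℝ) ^ D ≤ Y then _ else _ : Finset _)).card : ℝ) ≤ (if _ then _ else _) * A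
      by_cases h : (b : ℝ) ^ D ≤ Y
      · rw [if_pos h, if_pos h]
        have hR0 : (0 : ℝ) ≤ (H : ℝ) ^ κ * (b : ℝ) ^ (KD - n - 1 - ε) :=
          mul_nonneg (Real.rpow_nonneg hH0.le _) (Real.rpow_nonneg (Nat.cast_nonneg _) _)
        refine (hcard H hH _ hR0 x i0 b hx).trans (le_of_eq ?_)
        have hb0 : (0 : ℝ) < (b : ℝ) := by
          have := hx.2.2.1
          exact_mod_cast this
        have h5 : (b : ℝ) ^ (KD - n - 1 - ε) * (b : ℝ) ^ (∑ i, d i * (1 - co (k i)) + E * e') =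
            (b : ℝ) ^ ((D : ℝ) - n - 1 - ε) * (b : ℝ) ^ (D * e2) := by
          rw [← Real.rpow_add hb0, ← Real.rpow_add hb0, he4]
          congr 1
          linarith
        rw [hA]
        generalize (b : ℝ) ^ (KD - n - 1 - ε) = q1 at h5 ⊢
        generalize (b : ℝ) ^ (∑ i, d i * (1 - co (k i)) + E * e') = q2 at h5 ⊢
        generalize ((min b H : ℕ) : ℝ) ^ D = μ
        calc K * ((H : ℝ) ^ κ * q1) * ((H : ℝ) ^ (s * e') / (H : ℝ) ^ σ) * (q2 / μ) * G
            = (q1 * q2 / μ) * (K * ((H : ℝ) ^ κ * ((H : ℝ) ^ (s * e') / (H : ℝ) ^ σ)) * G) := by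
              ring
          _ = _ := by
              rw [h5]
              ring
      · rw [if_neg h, if_neg h, Finset.card_empty, Nat.cast_zero, zero_mul]
  refine h4.trans ?_
  have h5 : ∑ b ∈ Finset.Icc 1 B, (2 * (3 * b) ^ n : ℝ) * φ b ≤
      K2 * (1 + Y * (H : ℝ) ^ (-(D : ℝ) - ε / 4)) * A := by
    have h6 := mul_le_mul_of_nonneg_right (hsum H B Y hH hY0) hA0
    refine le_trans (le_of_eq ?_) h6
    rw [Finset.sum_mul]
    refine Finset.sum_congr rfl fun b _ => ?_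
    rw [hφ]
    ring
  have h6 : (0 : ℝ) ≤ (n : ℝ) + 1 := by positivity
  refine (mul_le_mul_of_nonneg_left h5 h6).trans ?_
  have hYH : Y * (H : ℝ) ^ (-(D : ℝ) - ε / 4) = (H : ℝ) ^ (σ - κ - ε / 4) := by
    rw [hY, ← Real.rpow_add hH0]
    congr 1
    ring
  have hHs : (H : ℝ) ^ κ * ((H : ℝ) ^ (s * e') / (H : ℝ) ^ σ) = (H : ℝ) ^ (κ + s * e' - σ) := by
    rw [← Real.rpow_sub hH0, ← Real.rpow_add hH0]
    congr 1
    ring
  rw [hYH, card_systems, Nat.cast_prod, ← hG, hA, hHs]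
  set δ : ℝ := min ((σ - κ) / 2) (ε / 8) with hδ
  have h7 : (H : ℝ) ^ (κ + s * e' - σ) ≤ (H : ℝ) ^ (-δ) := by
    refine Real.rpow_le_rpow_of_exponent_le hHr ?_
    have : δ ≤ (σ - κ) / 2 := min_le_left _ _
    linarith
  have h8 : (H : ℝ) ^ (σ - κ - ε / 4) * (H : ℝ) ^ (κ + s * e' - σ) ≤ (H : ℝ) ^ (-δ) := by
    rw [← Real.rpow_add hH0]
    refine Real.rpow_le_rpow_of_exponent_le hHr ?_
    have : δ ≤ ε / 8 := min_le_right _ _
    linarith
  have h9 : (1 + (H : ℝ) ^ (σ - κ - ε / 4)) * (H : ℝ) ^ (κ + s * e' - σ) ≤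
      2 * (H : ℝ) ^ (-δ) := by
    rw [add_mul, one_mul]
    linarith
  calc ((n : ℝ) + 1) * (K2 * (1 + (H : ℝ) ^ (σ - κ - ε / 4)) *
        (K * (H : ℝ) ^ (κ + s * e' - σ) * G))
      = ((n : ℝ) + 1) * K * K2 * G * ((1 + (H : ℝ) ^ (σ - κ - ε / 4)) *
        (H : ℝ) ^ (κ + s * e' - σ)) := by ring
    _ ≤ ((n : ℝ) + 1) * K * K2 * G * (2 * (H : ℝ) ^ (-δ)) :=
        mul_le_mul_of_nonneg_left h9 (mul_nonneg (mul_nonneg (mul_nonneg h6 hK) hK2) hG0)
    _ = _ := by ring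

end Pool.Agent.R870.RS
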